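import Pool.Agent.U922.OL.Few
import Pool.Agent.U922.OL.One

/-!
# The `2k`-th moment of zeta is decided by the values on `k - 1` lines

Let `k ≥ 1`, `N ≥ 1` and `N ≥ k - 1`, `u ≠ 0`, and let `E k N u S T` be the sum of `|ζ(1/2 + it)|^(2k)` over the
heights `S < t ≤ T` (`t > 100`) at which `ζ(1/2 + it)` is a nonzero point of one of the `N` lines `u e^{πij/N} ℝ`.

* (asymptotic formulas) `M_k(T) / (log T)^(k²)` tends to `a` if and only if `(2π/N) E k N u 0 T / (T (log T)^(k²+1))`
  tends to `a`. For `k ≥ 3` one can take `N = k - 1` lines: Q1 of the problem is equivalent to the asymptotic formulas for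
  the discrete moments over `k - 1` lines; for the sixth moment these are TWO lines.
* (comparison, unconditional) for `0 < ε < 1` and large `T`, `E k N u T (2T)` is at most `N/(2π) + ε` times
  `log T ∫ |ζ|^(2k)` over `[(1-ε)T, (2+ε)T]`, and `E k N u ((1-ε)T) ((2+ε)T)` is at least `N/(2π) - ε` times
  `log T ∫_T^{2T} |ζ|^(2k)`.
* (fourth moment, unconditional) for every `u ≠ 0` the sum of `|ζ(1/2 + it)|^4` over the heights `100 < t ≤ T` at which
  `ζ(1/2 + it)` lies on the ONE line `u ℝ` is asymptotically `T (log T)^5 / (4π³)`. For `u = 1` these heights are the Gram points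
  at which zeta does not vanish.

The starting hand-in `SamplingTheorem` treats `N ≥ k + 1` lines (with very small errors), `MP_973905_nt.AllRealOrders` infinitely
many lines (asymptotic formulas) or two lines (orders of magnitude). The main part is the theorem of the starting library
`Pool.Agent.W188.QS.equiv`, `upper`, `lower` (helper188 and others of an earlier round), which no hand-in used; the fourth moment
needs Ingham's theorem, from `Pool.Agent.TH806.N4.a_SHT`.
-/

set_option autoImplicit false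

open Filter Topology Set MeasureTheory

namespace Pool.Agent.Results.MP_112ba8_nt.FewLines

open Pool.Agent.U922.OL

theorem result :
    -- asymptotic formulas
    (∀ (k N : ℕ) (u : ℂ) (a : ℝ), 1 ≤ k → 1 ≤ N → k ≤ N + 1 → u ≠ 0 →
      (Tendsto (fun T : ℝ => M k T / Real.log T ^ (k ^ 2)) atTop (𝓝 a) ↔
        Tendsto (fun T : ℝ => 2 * Real.pi / N * E k N u 0 T / (T * Real.log T ^ (k ^ 2 + 1))) atTop (𝓝 a))) ∧
    -- the question of the problem
    (∀ u : ℂ, u ≠ 0 →
      ((∀ k : ℕ, 3 ≤ k → ∃ c : ℝ, 0 < c ∧ Tendsto (fun T : ℝ => M k T / Real.log T ^ (k ^ 2)) atTop (𝓝 c)) ↔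
        ∀ k : ℕ, 3 ≤ k → ∃ c : ℝ, 0 < c ∧
          Tendsto (fun T : ℝ => E k (k - 1) u 0 T / (T * Real.log T ^ (k ^ 2 + 1))) atTop (𝓝 c))) ∧
    -- comparison, unconditional
    (∀ (k N : ℕ) (u : ℂ) (ε : ℝ), 1 ≤ k → 1 ≤ N → k ≤ N + 1 → u ≠ 0 → 0 < ε → ε < 1 → ∀ᶠ T : ℝ in atTop,
      E k N u T (2 * T) ≤ (N / (2 * Real.pi) + ε) *
        (Real.log T * ∫ t in ((1 - ε) * T)..((2 + ε) * T), ‖z t‖ ^ (2 * k)) ∧
      (N / (2 * Real.pi) - ε) * (Real.log T * ∫ t in T..(2 * T), ‖z t‖ ^ (2 * k)) ≤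
        E k N u ((1 - ε) * T) ((2 + ε) * T)) ∧
    -- the fourth moment over one line, unconditional
    (∀ u : ℂ, u ≠ 0 → Tendsto (fun T : ℝ => (∑ᶠ t ∈ Line u ∩ Ioc 0 T, ‖z t‖ ^ 4) / (T * Real.log T ^ 5)) atTop
      (𝓝 (1 / (4 * Real.pi ^ 3)))) := by
  refine ⟨fun k N u a hk hN hkN hu => few_equiv a hk hN hkN hu, fun u hu => ?_,
    fun k N u ε hk hN hkN hu h0 h1 => (few_upper hk hN hkN hu h0 h1).and (few_lower hk hN hkN hu h0 h1),
    fun u hu => ?_⟩
  · constructor
    · intro h k hk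
      obtain ⟨c, hc, h1⟩ := h k hk
      have hN : (0 : ℝ) < ((k - 1 : ℕ) : ℝ) := by
        have : 0 < k - 1 := by omega
        exact_mod_cast this
      have h2 := (few_equiv c (by omega) (by omega) (by omega) hu (N := k - 1)).1 h1
      refine ⟨((k - 1 : ℕ) : ℝ) / (2 * Real.pi) * c, by positivity, ?_⟩
      have h3 := h2.const_mul (((k - 1 : ℕ) : ℝ) / (2 * Real.pi))
      refine h3.congr fun T => ?_
      field_simp
    · intro h k hk
      obtain ⟨c, hc, h1⟩ := h k hk
      have hN : (0 : ℝ) < ((k - 1 : ℕ) : ℝ) := by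
        have : 0 < k - 1 := by omega
        exact_mod_cast this
      refine ⟨2 * Real.pi / ((k - 1 : ℕ) : ℝ) * c, by positivity, ?_⟩
      rw [few_equiv _ (by omega) (by omega) (by omega) hu (N := k - 1)]
      refine (h1.const_mul (2 * Real.pi / ((k - 1 : ℕ) : ℝ))).congr fun T => ?_
      ring
  · have h := fourth hu
    refine h.congr fun T => ?_
    unfold E
    rw [Line_eq]

end Pool.Agent.Results.MP_112ba8_nt.FewLines
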