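import Mathlib
import Pool.Agent.W188.Mom.B4

/-!
# The moments of zeta on the critical line and its values on one ray

Let `Z(t) = |ζ(1/2 + it)|`.  For `u ≠ 0` let `Ray u T` be the set of the heights `100 ≤ v ≤ T` at which
`ζ(1/2 + iv)` is a positive multiple of `u` (it lies on the ray, the half line, from `0` through `u`), and
`raySum u p T` the sum of `Z(v)^p` over these heights.  For all real orders `p > 0`:

* (points) the heights in `Ray u T` are finitely many, two of them differ by at least `1 / (8 log T)`;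
* (upper bound) `∫_0^T Z^p ≤ (C log T)^(p + 1) (T + raySum u p (2T))` for `T ≥ N`, with `C`, `N` independent
  of the direction `u` and of the order `p`: the moments of zeta are controlled, up to a power of the
  logarithm, by the values on ONE ray;
* (lower bound) `raySum u p T ≤ B T^ε (T + ∫_0^(T + 2) Z^p)`, `B = B(p, ε)` independent of `u`;
* (one ray) so for every `u ≠ 0` and `p > 0` the bound `O(T^ε)` (for all `ε > 0`) for the mean of `Z^p` over
  `[0, T]` is equivalent to this bound for `1/T` times the sum over the ray of `u`; and Lindelöf's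
  hypothesis is equivalent to these bounds for the orders `2, 4, 6, ...` over one ray, for any one `u`;
* (growth) unconditionally, for `p > 2 + 2√2`, the sum over every ray is `≥ c T (log T)^(p^2/4 - p - 1)`,
  uniformly in the direction; so for every `A` and `T ≥ T₀(A)` each ray contains a value `ζ(1/2 + iv)`,
  `100 ≤ v ≤ T`, with `|ζ(1/2 + iv)| ≥ (log T)^A`.

The analytic part is in `Pool.Agent.W188.Ray` and `Pool.Agent.W188.Mom` (an earlier round).
-/

set_option autoImplicit false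

open Filter Set MeasureTheory

namespace Pool.Agent.Results.MP_112ba8_nt.OneRayMoments

/-- `|ζ(1/2 + it)|`. -/
noncomputable def Z (t : ℝ) : ℝ := ‖riemannZeta (1 / 2 + t * Complex.I)‖

/-- The heights `100 ≤ v ≤ T` at which `ζ(1/2 + iv)` is a positive multiple of `u`. -/
def Ray (u : ℂ) (T : ℝ) : Set ℝ :=
  {v | 100 ≤ v ∧ v ≤ T ∧ ∃ r : ℝ, 0 < r ∧ riemannZeta (1 / 2 + v * Complex.I) = r * u}

/-- The sum of `|ζ(1/2 + iv)|^p` over the heights `v` in `Ray u T`. -/
noncomputable def raySum (u : ℂ) (p T : ℝ) : ℝ := ∑ᶠ v ∈ Ray u T, Z v ^ p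

/-- The mean of `|ζ(1/2 + it)|^p` over `[0, T]` is `O(T^ε)` for all `ε > 0`. -/
def MomentBound (p : ℝ) : Prop := ∀ ε : ℝ, 0 < ε → ∃ B : ℝ, ∀ T : ℝ, 1 ≤ T →
  1 / T * ∫ t in (0 : ℝ)..T, Z t ^ p ≤ B * T ^ ε

/-- `1 / T` times the sum of `|ζ(1/2 + iv)|^p` over the heights in `Ray u T` is `O(T^ε)` for all
`ε > 0`. -/
def RayMomentBound (u : ℂ) (p : ℝ) : Prop := ∀ ε : ℝ, 0 < ε → ∃ B : ℝ, ∀ T : ℝ, 1 ≤ T →
  1 / T * raySum u p T ≤ B * T ^ ε

/-- The Lindelöf hypothesis. -/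
def Lindelof : Prop := ∀ ε : ℝ, 0 < ε → ∃ C : ℝ, ∀ t : ℝ, Z t ≤ C * (1 + |t|) ^ ε

section proofs

open Pool.Agent.W188.Mom (RP RS)

lemma raySum_eq {u : ℂ} (hu : u ≠ 0) (p T : ℝ) : raySum u p T = RS (u / (‖u‖ : ℂ)) p T := by
  rw [← Pool.Agent.W188.Mom.RS_norm hu]
  rfl

lemma Ray_eq {u : ℂ} (hu : u ≠ 0) (T : ℝ) : Ray u T = RP (u / (‖u‖ : ℂ)) T := by
  rw [← Pool.Agent.W188.Mom.RP_norm hu]
  rfl

lemma ray_iff {u : ℂ} (hu : u ≠ 0) {p : ℝ} (hp : 0 < p) : MomentBound p ↔ RayMomentBound u p := by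
  have h1 := Pool.Agent.W188.Mom.norm_dir hu
  have h2 : RayMomentBound u p ↔ Pool.Agent.W188.Mom.RayMomentBound (u / (‖u‖ : ℂ)) p := by
    unfold RayMomentBound Pool.Agent.W188.Mom.RayMomentBound
    simp only [raySum_eq hu]
  rw [h2]
  exact ⟨fun h => Pool.Agent.W188.Mom.ray_of_moment hp h h1,
    fun h => Pool.Agent.W188.Mom.moment_of_ray hp h1 h⟩

lemma Z_cont : Continuous Z := Pool.Agent.W188.Mom.Z_cont

lemma Z_nonneg (t : ℝ) : 0 ≤ Z t := norm_nonneg _

lemma Z_abs (t : ℝ) : Z t = Z |t| := by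
  rcases abs_cases t with ⟨h, _⟩ | ⟨h, _⟩
  · rw [h]
  · rw [h]
    exact (Pool.Agent.H983R4.LH.zeta_line_neg t).symm

/-- The Lindelöf hypothesis implies the bounds of all moments. -/
lemma moment_of_lh (h : Lindelof) {p : ℝ} (hp : 0 < p) : MomentBound p := by
  intro ε hε
  obtain ⟨C, hC⟩ := h (ε / p) (by positivity)
  have hC1 : ∀ t : ℝ, Z t ≤ |C| * (1 + |t|) ^ (ε / p) := fun t =>
    (hC t).trans (mul_le_mul_of_nonneg_right (le_abs_self C) (by positivity))
  refine ⟨|C| ^ p * 2 ^ ε, fun T hT => ?_⟩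
  have hT0 : 0 < T := by linarith
  have h1 : ∀ t ∈ Icc 0 T, Z t ^ p ≤ |C| ^ p * (2 ^ ε * T ^ ε) := by
    intro t ht
    have h2 : 1 + |t| ≤ 2 * T := by
      rw [abs_of_nonneg ht.1]; linarith [ht.2]
    calc Z t ^ p ≤ (|C| * (1 + |t|) ^ (ε / p)) ^ p :=
          Real.rpow_le_rpow (Z_nonneg t) (hC1 t) hp.le
      _ = |C| ^ p * (1 + |t|) ^ ε := by
          rw [Real.mul_rpow (abs_nonneg C) (by positivity), ← Real.rpow_mul (by positivity),
            div_mul_cancel₀ _ hp.ne']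
      _ ≤ |C| ^ p * (2 * T) ^ ε :=
          mul_le_mul_of_nonneg_left (Real.rpow_le_rpow (by positivity) h2 hε.le) (by positivity)
      _ = _ := by rw [Real.mul_rpow (by norm_num) hT0.le]
  have h2 : ∫ t in (0 : ℝ)..T, Z t ^ p ≤ ∫ _t in (0 : ℝ)..T, |C| ^ p * (2 ^ ε * T ^ ε) :=
    intervalIntegral.integral_mono_on hT0.le (Pool.Agent.W188.Mom.Zp_int hp 0 T)
      intervalIntegrable_const h1
  rw [intervalIntegral.integral_const, smul_eq_mul, sub_zero] at h2
  rw [one_div, inv_mul_le_iff₀ hT0]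
  calc _ ≤ _ := h2
    _ = _ := by ring

/-- The bounds of the moments of the orders `2, 4, 6, ...` imply the Lindelöf hypothesis. -/
lemma lh_of_moment (h : ∀ k : ℕ, 1 ≤ k → MomentBound (2 * k)) : Lindelof := by
  intro ε hε
  -- the order
  obtain ⟨k, hk1, hk2⟩ : ∃ k : ℕ, 1 ≤ k ∧ 4 ≤ 2 * (k : ℝ) * ε := by
    obtain ⟨k, hk⟩ := exists_nat_gt (2 / ε)
    refine ⟨k, ?_, ?_⟩
    · have : (0 : ℝ) < k := lt_trans (by positivity) hk
      exact_mod_cast this
    · rw [div_lt_iff₀ hε] at hk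
      linarith
  obtain ⟨p, hp⟩ : ∃ p : ℝ, p = 2 * (k : ℝ) := ⟨_, rfl⟩
  have hp0 : 0 < p := by
    have : (0 : ℝ) < k := by exact_mod_cast hk1
    rw [hp]; positivity
  obtain ⟨B, hB⟩ := h k hk1 1 one_pos
  rw [← hp] at hB hk2
  -- large heights
  have hlarge : ∀ T : ℝ, 2000 ≤ T → Z T ≤ (2 + 2 * (|B| * 400) ^ (1 / p)) * (1 + T) ^ ε := by
    intro T hT
    have hT0 : 0 < T := by linarith
    have h1T : 1 ≤ (1 + T) ^ ε := Real.one_le_rpow (by linarith) hε.le
    have hBp : 0 ≤ (|B| * 400) ^ (1 / p) := by positivity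
    by_cases h2 : Z T ≤ 2
    · calc Z T ≤ 2 * 1 := by linarith
        _ ≤ (2 + 2 * (|B| * 400) ^ (1 / p)) * (1 + T) ^ ε :=
          mul_le_mul (by linarith) h1T (by norm_num) (by positivity)
    · push Not at h2
      -- zeta is large on an interval
      obtain ⟨δ, hδ⟩ : ∃ δ : ℝ, δ = 1 / (100 * T) := ⟨_, rfl⟩
      have hδ0 : 0 < δ := by rw [hδ]; positivity
      have hδT : 100 * T * δ = 1 := by rw [hδ]; field_simp
      have hδ1 : δ ≤ 1 := by
        rw [hδ, div_le_one (by positivity)]; linarith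
      have h3 : ∀ t ∈ Icc T (T + δ), Z T / 2 ≤ Z t := by
        intro t ht
        have h4 := Pool.Agent.W188.Ray.zeta_lip (t := t) (t' := T) (T := T) (by linarith)
          (by linarith [ht.1]) (by linarith [ht.2]) (by linarith) (by linarith)
        have h5 : |t - T| ≤ δ := by
          rw [abs_of_nonneg (by linarith [ht.1])]; linarith [ht.2]
        have h6 : ‖riemannZeta (Pool.Agent.W188.Ray.cp t) - riemannZeta (Pool.Agent.W188.Ray.cp T)‖
            ≤ 1 := by
          refine h4.trans ?_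
          rw [← hδT]
          exact mul_le_mul_of_nonneg_left h5 (by positivity)
        have h7 : Z T - Z t ≤ 1 := by
          have h8 := norm_sub_norm_le (riemannZeta (Pool.Agent.W188.Ray.cp T))
            (riemannZeta (Pool.Agent.W188.Ray.cp t))
          rw [norm_sub_rev] at h8
          exact h8.trans h6
        linarith
      have h4 : δ * (Z T / 2) ^ p ≤ ∫ t in T..(T + δ), Z t ^ p := by
        have h5 : ∫ _t in T..(T + δ), (Z T / 2) ^ p ≤ ∫ t in T..(T + δ), Z t ^ p :=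
          intervalIntegral.integral_mono_on (by linarith) intervalIntegrable_const
            (Pool.Agent.W188.Mom.Zp_int hp0 _ _) fun t ht =>
              Real.rpow_le_rpow (by linarith) (h3 t ht) hp0.le
        rw [intervalIntegral.integral_const, smul_eq_mul, add_sub_cancel_left] at h5
        exact h5
      have h5 : ∫ t in T..(T + δ), Z t ^ p ≤ ∫ t in (0 : ℝ)..(2 * T), Z t ^ p :=
        Pool.Agent.W188.Mom.mono_int hp0 hT0.le (by linarith) (by linarith)
      have h6 := hB (2 * T) (by linarith)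
      rw [one_div, inv_mul_le_iff₀ (by linarith), Real.rpow_one] at h6
      have h7 : (Z T / 2) ^ p ≤ |B| * 400 * T ^ (3 : ℝ) := by
        have h8 : δ * (Z T / 2) ^ p ≤ 4 * |B| * T ^ 2 := by
          calc δ * (Z T / 2) ^ p ≤ 2 * T * (B * (2 * T)) := (h4.trans h5).trans h6
            _ ≤ 2 * T * (|B| * (2 * T)) :=
              mul_le_mul_of_nonneg_left
                (mul_le_mul_of_nonneg_right (le_abs_self B) (by positivity)) (by positivity)
            _ = _ := by ring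
        have h9 : T ^ (3 : ℝ) = T ^ 3 := by
          rw [show (3 : ℝ) = ((3 : ℕ) : ℝ) by norm_num, Real.rpow_natCast]
        rw [h9]
        calc (Z T / 2) ^ p = 100 * T * (δ * (Z T / 2) ^ p) := by
              rw [← mul_assoc, hδT, one_mul]
          _ ≤ 100 * T * (4 * |B| * T ^ 2) := mul_le_mul_of_nonneg_left h8 (by positivity)
          _ = _ := by ring
      have h8 : Z T / 2 ≤ (|B| * 400) ^ (1 / p) * (1 + T) ^ ε := by
        have hz : 0 ≤ Z T / 2 := by linarith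
        calc Z T / 2 = ((Z T / 2) ^ p) ^ (1 / p) := by
              rw [← Real.rpow_mul hz, mul_one_div_cancel hp0.ne', Real.rpow_one]
          _ ≤ (|B| * 400 * T ^ (3 : ℝ)) ^ (1 / p) :=
              Real.rpow_le_rpow (Real.rpow_nonneg hz p) h7 (by positivity)
          _ = (|B| * 400) ^ (1 / p) * T ^ (3 / p) := by
              rw [Real.mul_rpow (by positivity) (by positivity), ← Real.rpow_mul hT0.le]
              congr 2
              ring
          _ ≤ (|B| * 400) ^ (1 / p) * (1 + T) ^ ε := by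
              apply mul_le_mul_of_nonneg_left _ hBp
              calc T ^ (3 / p) ≤ T ^ ε := by
                    apply Real.rpow_le_rpow_of_exponent_le (by linarith)
                    rw [div_le_iff₀ hp0]
                    linarith
                _ ≤ (1 + T) ^ ε := Real.rpow_le_rpow hT0.le (by linarith) hε.le
      nlinarith
  obtain ⟨A, hA⟩ := (isCompact_Icc (a := (0 : ℝ)) (b := 2000)).exists_bound_of_continuousOn
    Z_cont.continuousOn
  refine ⟨2 + 2 * (|B| * 400) ^ (1 / p) + |A|, fun t => ?_⟩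
  rw [Z_abs]
  have h1T : 1 ≤ (1 + |t|) ^ ε := Real.one_le_rpow (by linarith [abs_nonneg t]) hε.le
  have hBp : 0 ≤ (|B| * 400) ^ (1 / p) := by positivity
  rcases le_or_gt 2000 |t| with h1 | h1
  · refine (hlarge |t| h1).trans (mul_le_mul_of_nonneg_right ?_ (by positivity))
    linarith [abs_nonneg A]
  · have h2 := hA |t| ⟨abs_nonneg t, h1.le⟩
    rw [Real.norm_of_nonneg (Z_nonneg _)] at h2
    calc Z |t| ≤ A := h2
      _ ≤ 2 + 2 * (|B| * 400) ^ (1 / p) + |A| := by linarith [le_abs_self A]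
      _ ≤ _ := le_mul_of_one_le_right (by positivity) h1T

lemma lh_iff {u : ℂ} (hu : u ≠ 0) :
    Lindelof ↔ ∀ k : ℕ, 1 ≤ k → RayMomentBound u (2 * k) := by
  have hk : ∀ k : ℕ, 1 ≤ k → (0 : ℝ) < 2 * k := fun k hk => by
    have : (0 : ℝ) < k := by exact_mod_cast hk
    positivity
  constructor
  · intro h k h1
    exact (ray_iff hu (hk k h1)).1 (moment_of_lh h (hk k h1))
  · intro h
    exact lh_of_moment fun k h1 => (ray_iff hu (hk k h1)).2 (h k h1)

/-- The number of the points. -/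
lemma ray_card {u : ℂ} (hu : ‖u‖ = 1) {T : ℝ} (hT : 100 ≤ T) :
    ((RP u T).ncard : ℝ) ≤ 8 * Real.log T * T + 1 := by
  have hlog : 0 < Real.log T := Real.log_pos (by linarith)
  have hle : (RP u T).ncard ≤ (Iic ⌊T * (8 * Real.log T)⌋₊).ncard := by
    apply ncard_le_ncard_of_injOn (fun v : ℝ => ⌊(v - 0) * (8 * Real.log T)⌋₊)
    · intro v hv
      simp only [mem_Iic]
      apply Nat.floor_le_floor
      rw [sub_zero]
      exact mul_le_mul_of_nonneg_right hv.2.1 (by positivity)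
    · have hsub : RP u T ⊆ RP u T ∩ {v | (0 : ℝ) ≤ v} := fun v hv =>
        ⟨hv, (by linarith [hv.1] : (0 : ℝ) ≤ v)⟩
      exact (Pool.Agent.W188.Mom.RP_inj hu (T := T) (a := 0)).mono hsub
  have hc : (Iic ⌊T * (8 * Real.log T)⌋₊).ncard = ⌊T * (8 * Real.log T)⌋₊ + 1 := by
    rw [← Finset.coe_Iic, ncard_coe_finset, Nat.card_Iic]
  rw [hc] at hle
  have h1 : ((RP u T).ncard : ℝ) ≤ (⌊T * (8 * Real.log T)⌋₊ : ℝ) + 1 := by exact_mod_cast hle
  have h2 := Nat.floor_le (show 0 ≤ T * (8 * Real.log T) by positivity)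
  linarith

/-- Large values on every ray. -/
lemma large (A : ℝ) : ∃ T₀ : ℝ, ∀ T : ℝ, T₀ ≤ T → ∀ u : ℂ, u ≠ 0 →
    ∃ v ∈ Ray u T, Real.log T ^ A ≤ Z v := by
  obtain ⟨p, hp⟩ : ∃ p : ℝ, p = 4 * |A| + 20 := ⟨_, rfl⟩
  have hA0 := abs_nonneg A
  have hp2 : 2 ≤ p := by linarith
  have hp0 : 0 < p := by linarith
  have hq : |A| * p + 2 ≤ p ^ 2 / 4 - p - 1 := by
    rw [hp]; nlinarith
  obtain ⟨c, T₀, hc, h⟩ := Pool.Agent.W188.Mom.ray_lower hp2 (by nlinarith)
  -- the logarithm is large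
  obtain ⟨T₁, hT₁⟩ := eventually_atTop.1
    ((Real.tendsto_log_atTop).eventually_ge_atTop (10 / c + 1))
  refine ⟨max (max T₀ T₁) 1000, fun T hT u hu => ?_⟩
  have a1 : T₀ ≤ T := (le_max_left _ _).trans ((le_max_left _ _).trans hT)
  have a2 : T₁ ≤ T := (le_max_right _ _).trans ((le_max_left _ _).trans hT)
  have a3 : 1000 ≤ T := (le_max_right _ _).trans hT
  have hT0 : 0 < T := by linarith
  have hlog := hT₁ T a2
  have hc10 : 0 < 10 / c := by positivity
  have hlog1 : 1 ≤ Real.log T := by linarith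
  have hl0 : 0 < Real.log T := by linarith
  by_contra hcon
  push Not at hcon
  have hu1 := Pool.Agent.W188.Mom.norm_dir hu
  have h1 := h T a1 _ hu1
  have h2 : RS (u / (‖u‖ : ℂ)) p T ≤
      ((RP (u / (‖u‖ : ℂ)) T).ncard : ℝ) * Real.log T ^ (|A| * p) := by
    rw [Pool.Agent.W188.Mom.RS_eq hu1, ncard_eq_toFinset_card _
      (Pool.Agent.W188.Mom.RP_finite hu1 T), ← nsmul_eq_mul]
    apply Finset.sum_le_card_nsmul
    intro v hv
    rw [Finite.mem_toFinset, ← Ray_eq hu] at hv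
    have h3 : Z v ≤ Real.log T ^ |A| :=
      (hcon v hv).le.trans (Real.rpow_le_rpow_of_exponent_le hlog1 (le_abs_self A))
    calc Pool.Agent.W188.Mom.Z v ^ p ≤ (Real.log T ^ |A|) ^ p :=
          Real.rpow_le_rpow (Z_nonneg v) h3 hp0.le
      _ = _ := by rw [← Real.rpow_mul hl0.le]
  have h3 := ray_card hu1 (T := T) (by linarith)
  have h4 : 8 * Real.log T * T + 1 ≤ 9 * T * Real.log T ^ (1 : ℝ) := by
    rw [Real.rpow_one]; nlinarith
  have h5 : c * T * Real.log T ^ (p ^ 2 / 4 - p - 1) ≤ 9 * T * Real.log T ^ (|A| * p + 1) := by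
    calc _ ≤ _ := h1
      _ ≤ _ := h2
      _ ≤ 9 * T * Real.log T ^ (1 : ℝ) * Real.log T ^ (|A| * p) :=
        mul_le_mul_of_nonneg_right (h3.trans h4) (by positivity)
      _ = _ := by
        rw [mul_assoc, ← Real.rpow_add hl0, add_comm (1 : ℝ)]
  have h6 : Real.log T ^ (|A| * p + 1) * Real.log T ≤ Real.log T ^ (p ^ 2 / 4 - p - 1) := by
    rw [← Real.rpow_add_one hl0.ne']
    exact Real.rpow_le_rpow_of_exponent_le hlog1 (by linarith)
  have h7 : 0 < Real.log T ^ (|A| * p + 1) := Real.rpow_pos_of_pos hl0 _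
  have h8 : c * T * (Real.log T ^ (|A| * p + 1) * Real.log T) ≤
      9 * T * Real.log T ^ (|A| * p + 1) :=
    (mul_le_mul_of_nonneg_left h6 (by positivity)).trans h5
  have h9 : c * Real.log T ≤ 9 := by
    have h10 : (c * Real.log T) * (T * Real.log T ^ (|A| * p + 1)) ≤
        9 * (T * Real.log T ^ (|A| * p + 1)) := by linarith
    exact le_of_mul_le_mul_right h10 (by positivity)
  have h10 : c * (10 / c + 1) ≤ c * Real.log T := mul_le_mul_of_nonneg_left hlog hc.le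
  have h11 : c * (10 / c + 1) = 10 + c := by field_simp
  linarith

end proofs

theorem result :
    -- the points
    (∀ (u : ℂ) (T : ℝ), u ≠ 0 → (Ray u T).Finite ∧
      ∀ v ∈ Ray u T, ∀ v' ∈ Ray u T, v < v' → 1 / (8 * Real.log T) < v' - v) ∧
    -- the moments are bounded by the sums over one ray
    (∃ C N : ℝ, 1 ≤ C ∧ ∀ T : ℝ, N ≤ T → ∀ u : ℂ, u ≠ 0 → ∀ p : ℝ, 0 < p →
      ∫ t in (0 : ℝ)..T, Z t ^ p ≤ (C * Real.log T) ^ (p + 1) * (T + raySum u p (2 * T))) ∧
    -- the sums over one ray are bounded by the moments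
    (∀ p ε : ℝ, 0 < p → 0 < ε → ∃ B : ℝ, ∀ T : ℝ, 1 ≤ T → ∀ u : ℂ, u ≠ 0 →
      raySum u p T ≤ B * T ^ ε * (T + ∫ t in (0 : ℝ)..(T + 2), Z t ^ p)) ∧
    -- one ray decides the bound of a moment, and the Lindelöf hypothesis
    (∀ (u : ℂ) (p : ℝ), u ≠ 0 → 0 < p → (MomentBound p ↔ RayMomentBound u p)) ∧
    (∀ u : ℂ, u ≠ 0 → (Lindelof ↔ ∀ k : ℕ, 1 ≤ k → RayMomentBound u (2 * k))) ∧
    -- growth
    (∀ p : ℝ, 2 + 2 * √2 < p → ∃ c T₀ : ℝ, 0 < c ∧ ∀ T : ℝ, T₀ ≤ T → ∀ u : ℂ, u ≠ 0 →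
      c * T * Real.log T ^ (p ^ 2 / 4 - p - 1) ≤ raySum u p T) ∧
    (∀ A : ℝ, ∃ T₀ : ℝ, ∀ T : ℝ, T₀ ≤ T → ∀ u : ℂ, u ≠ 0 →
      ∃ v ∈ Ray u T, Real.log T ^ A ≤ Z v) := by
  refine ⟨fun u T hu => ?_, ?_, fun p ε hp hε => ?_, fun u p hu hp => ray_iff hu hp,
    fun u hu => lh_iff hu, fun p hp => ?_, large⟩
  · rw [Ray_eq hu]
    have hu1 := Pool.Agent.W188.Mom.norm_dir hu
    exact ⟨Pool.Agent.W188.Mom.RP_finite hu1 T,
      fun v hv v' hv' h => Pool.Agent.W188.Mom.RP_spacing hu1 hv hv' h⟩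
  · obtain ⟨C, N, hC, -, h⟩ := Pool.Agent.W188.Mom.major
    refine ⟨C, N, hC, fun T hT u hu p hp => ?_⟩
    rw [raySum_eq hu]
    exact h T hT _ (Pool.Agent.W188.Mom.norm_dir hu) p hp
  · obtain ⟨B, -, h⟩ := Pool.Agent.W188.Mom.RS_le hp hε
    refine ⟨B, fun T hT u hu => ?_⟩
    rw [raySum_eq hu]
    exact h T hT _ (Pool.Agent.W188.Mom.norm_dir hu)
  · have h2 : 0 ≤ √2 := Real.sqrt_nonneg 2
    have h22 : √2 * √2 = 2 := Real.mul_self_sqrt (by norm_num)
    obtain ⟨c, T₀, hc, h⟩ := Pool.Agent.W188.Mom.ray_lower (p := p) (by linarith) (by nlinarith)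
    refine ⟨c, T₀, hc, fun T hT u hu => ?_⟩
    rw [raySum_eq hu]
    exact h T hT _ (Pool.Agent.W188.Mom.norm_dir hu)

end Pool.Agent.Results.MP_112ba8_nt.OneRayMoments
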