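import Pool.Agent.U196.SH.Ext

set_option autoImplicit false

/-!
# Moments, extreme values and large deviations of Hardy's function on the sets where it is positive, and where it is negative

Let `S(σ)` be the set of the `t` in `[T, 2T]` at which Hardy's function `Z` has the sign `σ` and which are at distance at least
`d / log T` from all zeros of zeta (`d > 0` is an absolute constant). Unconditionally, for EACH of the two signs:

(1) for every product `V(t) = ∏_j |ζ(1/2 + i(t + α_j))|^(2 k_j)` of nonnegative orders with `∑ 2 k_j ≤ 2` and arbitrary shifts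
`|α_j| ≤ T/2`, and EVERY Dirichlet polynomial `B` of length `T^θ`: `∫_{S(σ)} V |B|² ≥ c ∫_T^{2T} V |B|²`. (For `V = 1`: the sets on which
`Z` is positive and negative carry a positive share of the mass of every Dirichlet polynomial.)
(2) for all real orders (positive or negative, `∑ |k_j| ≤ A`), with one Dirichlet polynomial `E` of the conjectured mean square:
`∫_{S(σ)} V |B|² ≥ c ∫_T^{2T} |E B|²` for every `B`;
(3) `∫_{S(σ)} |Z|^(2k) ≥ c T (log T)^(k²)` for all real `k`, positive or negative, with the upper bound `C T (log T)^(k²)` for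
`0 ≤ k ≤ 1`: the moments of order at most two have the same order of magnitude on both sets;
(4) `|Z| ≥ exp(c r(T))`, and `|Z| ≤ exp(-c r(T))`, with `r(T) = √(log T / log log T)`, each on a part of `S(σ)` of measure at least
`T^(1-ε)`: large positive and large negative values, and small ones which are not near zeros;
(5) for `0 < κ < 1` the measure of the `t` in `[T, 2T]` with `σ Z(t) ≥ (log T)^κ` is `T (log T)^(-κ² + o(1))`.

The idea: to the right of an isolated simple zero at which `Z` increases, `Z` is positive, and these zeros carry a positive share of the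
weight `|B|²` of all zeros, for every `B` (files `U196/SN`); as the variation of `|B|²` is a small part of this weight, it passes to the
intervals. Once a set carries a positive share of the mass of EVERY Dirichlet polynomial, it carries moments, extreme values and large
deviations of the right order (files `U196/SH`, after the library theorems `LBM` and `LBK` of helper97 and helper98).
-/

namespace Pool.Agent.Results.MP_112ba8_nt.PositiveAndNegativeValues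

open Filter Topology MeasureTheory Complex

noncomputable section

/-- the phase `exp (i ϑ(t))`, with `ϑ(t) = arg Γ(1/4 + i t / 2) - (t / 2) log π` -/
def phase (t : ℝ) : ℂ :=
  Gamma (1 / 4 + I * t / 2) / ‖Gamma (1 / 4 + I * t / 2)‖ * cexp (-(I * (t / 2) * Real.log Real.pi))

/-- Hardy's function `Z(t) = exp (i ϑ(t)) ζ(1/2 + i t)`, a real number; the theorem contains the proof that the product is real -/
def Z (t : ℝ) : ℝ := (phase t * riemannZeta (1 / 2 + I * t)).re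

/-- the Dirichlet polynomial with the coefficients `b_1, ..., b_N` on the critical line -/
def B (N : ℕ) (b : ℕ → ℂ) (t : ℝ) : ℂ := ∑ n ∈ Finset.Icc 1 N, b n * (n : ℂ) ^ (-(1 / 2 + t * I))

/-- the product `∏_j |ζ(1/2 + i(t + α_j))|^(2 k_j)` -/
def V {n : ℕ} (k α : Fin n → ℝ) (t : ℝ) : ℝ := ∏ j, ‖riemannZeta (1 / 2 + (t + α j : ℝ) * I)‖ ^ (2 * k j)

/-- the predicted order `∏_{i,j} |ζ(1 + 1/log T + i(α_i - α_j))|^(k_i k_j)` of its mean value -/
def order (T : ℝ) {n : ℕ} (k α : Fin n → ℝ) : ℝ :=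
  ∏ i, ∏ j, ‖riemannZeta (1 + 1 / Real.log T + (α i - α j) * I)‖ ^ (k i * k j)

/-- the `t` in `[T, 2T]` with `σ Z(t) > 0` such that `1/2 + it` is at distance at least `d / log T` from all nontrivial zeros -/
def S (d σ T : ℝ) : Set ℝ := {t : ℝ | T ≤ t ∧ t ≤ 2 * T ∧ 0 < σ * Z t ∧
  ∀ s : ℂ, riemannZeta s = 0 → 0 < s.re → s.re < 1 → d / Real.log T ≤ ‖s - (1 / 2 + I * t)‖}

/-- `√(log T / log log T)` -/
def r (T : ℝ) : ℝ := Real.sqrt (Real.log T / Real.log (Real.log T))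

lemma phase_norm (t : ℝ) : ‖phase t‖ = 1 := by
  unfold phase
  rw [norm_mul, norm_div, Complex.norm_real, norm_norm,
    div_self (norm_ne_zero_iff.mpr (Pool.Agent.R304.SG.gamma_ne t)), Complex.norm_exp, one_mul]
  have : (-(I * ((t : ℂ) / 2) * (Real.log Real.pi : ℂ))).re = 0 := by
    have e : -(I * ((t : ℂ) / 2) * (Real.log Real.pi : ℂ)) = ((-(t / 2 * Real.log Real.pi) : ℝ) : ℂ) * I := by
      push_cast; ring
    rw [e]
    simp
  rw [this, Real.exp_zero]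

lemma Z_real (t : ℝ) : (Z t : ℂ) = phase t * riemannZeta (1 / 2 + I * t) := Pool.Agent.R304.SG.Z_re t

lemma abs_Z (t : ℝ) : |Z t| = ‖Pool.Agent.Q97.UM.zt t‖ := by
  rw [← Real.norm_eq_abs, ← Complex.norm_real, Z_real, norm_mul, phase_norm, one_mul, mul_comm I]
  rfl

lemma S_eq (d σ T : ℝ) : S d σ T = Pool.Agent.U196.SH.SS d σ T := rfl

lemma zt_pos {d σ T t : ℝ} (h : t ∈ Pool.Agent.U196.SH.SS d σ T) : 0 < ‖Pool.Agent.Q97.UM.zt t‖ := by
  rw [← abs_Z, abs_pos]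
  intro h0
  have h1 : 0 < σ * Z t := h.2.2.1
  rw [h0, mul_zero] at h1
  exact lt_irrefl _ h1

/-- **Hardy's function where it is positive and where it is negative.** -/
theorem result :
    (∀ t : ℝ, (Z t : ℂ) = phase t * riemannZeta (1 / 2 + I * t)) ∧
    ∃ d : ℝ, 0 < d ∧
    -- a positive share of every weighted moment of total order at most two
    (∀ n : ℕ, ∃ θ c T₀ : ℝ, 0 < θ ∧ 0 < c ∧ ∀ T : ℝ, T₀ ≤ T → ∀ k α : Fin n → ℝ, (∀ j, 0 ≤ k j) → ∑ j, k j ≤ 1 →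
      (∀ j, |α j| ≤ T / 2) → ∀ σ : ℝ, σ = 1 ∨ σ = -1 → ∀ N : ℕ, (N : ℝ) ≤ T ^ θ → ∀ b : ℕ → ℂ,
        c * (∫ t in T..(2 * T), V k α t * ‖B N b t‖ ^ 2) ≤ ∫ t in S d σ T, V k α t * ‖B N b t‖ ^ 2) ∧
    -- all real orders
    (∀ A : ℝ, ∃ θ c T₀ : ℝ, 0 < θ ∧ 0 < c ∧ ∀ T : ℝ, T₀ ≤ T → ∀ (n : ℕ) (k α : Fin n → ℝ),
      ∑ j, |k j| ≤ A → (∀ j, |α j| ≤ T / 2) → ∃ (M : ℕ) (e : ℕ → ℂ), (M : ℝ) ≤ T ^ (1 / 8 : ℝ) ∧
        c * (T * order T k α) ≤ ∫ t in T..(2 * T), ‖B M e t‖ ^ 2 ∧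
        ∀ σ : ℝ, σ = 1 ∨ σ = -1 → ∀ N : ℕ, (N : ℝ) ≤ T ^ θ → ∀ b : ℕ → ℂ,
          ENNReal.ofReal (c * ∫ t in T..(2 * T), ‖B M e t * B N b t‖ ^ 2) ≤
            ∫⁻ t in S d σ T, ENNReal.ofReal (V k α t * ‖B N b t‖ ^ 2)) ∧
    -- all moments, and the exact order of those of order at most two
    (∀ A : ℝ, ∃ c T₀ : ℝ, 0 < c ∧ ∀ T : ℝ, T₀ ≤ T → ∀ k : ℝ, |k| ≤ A → ∀ σ : ℝ, σ = 1 ∨ σ = -1 →
      IntegrableOn (fun t => |Z t| ^ (2 * k)) (S d σ T) ∧
      c * (T * Real.log T ^ (k ^ 2)) ≤ ∫ t in S d σ T, |Z t| ^ (2 * k)) ∧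
    (∃ C T₀ : ℝ, 0 < C ∧ ∀ T : ℝ, T₀ ≤ T → ∀ k : ℝ, 0 ≤ k → k ≤ 1 →
      ∫ t in T..(2 * T), |Z t| ^ (2 * k) ≤ C * (T * Real.log T ^ (k ^ 2))) ∧
    -- extreme values of both signs
    (∀ ε : ℝ, 0 < ε → ∃ c T₀ : ℝ, 0 < c ∧ ∀ T : ℝ, T₀ ≤ T → ∀ σ : ℝ, σ = 1 ∨ σ = -1 →
      ENNReal.ofReal (T ^ (1 - ε)) ≤ volume {t : ℝ | t ∈ S d σ T ∧ Real.exp (c * r T) ≤ |Z t|} ∧
      ENNReal.ofReal (T ^ (1 - ε)) ≤ volume {t : ℝ | t ∈ S d σ T ∧ |Z t| ≤ Real.exp (-(c * r T))}) ∧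
    -- large deviations of both signs
    (∀ κ ε : ℝ, 0 < κ → κ < 1 → 0 < ε → ∃ T₀ : ℝ, ∀ T : ℝ, T₀ ≤ T → ∀ σ : ℝ, σ = 1 ∨ σ = -1 →
      ENNReal.ofReal (T * Real.log T ^ (-κ ^ 2 - ε)) ≤ volume {t : ℝ | t ∈ S d σ T ∧ Real.log T ^ κ ≤ σ * Z t} ∧
      volume {t : ℝ | T ≤ t ∧ t ≤ 2 * T ∧ Real.log T ^ κ ≤ σ * Z t} ≤ ENNReal.ofReal (T * Real.log T ^ (-κ ^ 2 + ε))) := by
  refine ⟨Z_real, ?_⟩
  obtain ⟨d, θ₁, c₀, hd, hθ₁, -, hc₀, hm⟩ := Pool.Agent.U196.SH.mass'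
  refine ⟨d, hd, ?_, ?_, ?_, ?_, ?_, ?_⟩
  · intro n
    obtain ⟨θ, c, C, hθ, hc, hC, h⟩ := Pool.Agent.U196.SH.shareS hθ₁ hc₀ hm n
    rw [Filter.eventually_atTop] at h
    obtain ⟨T₀, hT₀⟩ := h
    refine ⟨θ, c, T₀, hθ, hc, fun T hT k α hk hk1 hα σ hσ N hN b => ?_⟩
    exact (hT₀ T hT k α hk hk1 hα).2 ⟨σ, hσ⟩ N hN b
  · intro A
    obtain ⟨θ, c, hθ, hc, h⟩ := Pool.Agent.U196.SH.lowerS hθ₁ hc₀ hm (le_max_right A 1)
    rw [Filter.eventually_atTop] at h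
    obtain ⟨T₀, hT₀⟩ := h
    refine ⟨θ, c, T₀, hθ, hc, fun T hT n k α hk hα => ?_⟩
    obtain ⟨M, e, hM, h1, h2⟩ := hT₀ T hT n k α (hk.trans (le_max_left _ _)) hα
    exact ⟨M, e, hM, h1, fun σ hσ N hN b => h2 ⟨σ, hσ⟩ N hN b⟩
  · intro A
    obtain ⟨c, hc, h⟩ := Pool.Agent.U196.SH.momentsS hd hθ₁ hc₀ hm (le_max_right A 1)
    have hev := h.and (eventually_ge_atTop (16 : ℝ))
    rw [Filter.eventually_atTop] at hev
    obtain ⟨T₀, hT₀⟩ := hev
    refine ⟨c, T₀, hc, fun T hT k hk σ hσ => ?_⟩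
    obtain ⟨h1, hT16⟩ := hT₀ T hT
    simp_rw [abs_Z]
    exact ⟨Pool.Agent.U196.SH.pow_int hd (by linarith) σ k, h1 k (hk.trans (le_max_left _ _)) ⟨σ, hσ⟩⟩
  · obtain ⟨C, hC, h⟩ := Pool.Agent.U196.SH.upperS hθ₁ hc₀ hm
    rw [Filter.eventually_atTop] at h
    obtain ⟨T₀, hT₀⟩ := h
    refine ⟨C, T₀, hC, fun T hT k hk0 hk1 => ?_⟩
    simp_rw [abs_Z]
    exact hT₀ T hT k hk0 hk1
  · intro ε hε
    obtain ⟨c, hc, h⟩ := Pool.Agent.U196.SH.extS hθ₁ hc₀ hm hε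
    rw [Filter.eventually_atTop] at h
    obtain ⟨T₀, hT₀⟩ := h
    refine ⟨c, T₀, hc, fun T hT σ hσ => ⟨?_, ?_⟩⟩
    · refine (hT₀ T hT ⟨σ, hσ⟩ 1 (Or.inl rfl)).trans (le_of_eq ?_)
      congr 1
      ext t
      simp only [Set.mem_ofPred_eq, S_eq]
      refine and_congr_right fun ht => ?_
      rw [abs_Z, one_mul, Real.le_log_iff_exp_le (zt_pos ht)]
      rfl
    · refine (hT₀ T hT ⟨σ, hσ⟩ (-1) (Or.inr rfl)).trans (le_of_eq ?_)
      congr 1
      ext t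
      simp only [Set.mem_ofPred_eq, S_eq]
      refine and_congr_right fun ht => ?_
      rw [abs_Z, neg_one_mul, le_neg, Real.log_le_iff_le_exp (zt_pos ht)]
      rfl
  · intro κ ε hκ hκ1 hε
    have hev := (Pool.Agent.U196.SH.ld_low hd hθ₁ hc₀ hm hκ.le hκ1 hε).and
      ((Pool.Agent.U196.SH.ld_up hθ₁ hc₀ hm hκ hκ1.le hε).and (eventually_ge_atTop (16 : ℝ)))
    rw [Filter.eventually_atTop] at hev
    obtain ⟨T₀, hT₀⟩ := hev
    refine ⟨T₀, fun T hT σ hσ => ?_⟩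
    obtain ⟨h1, h2, hT16⟩ := hT₀ T hT
    have hL : 0 < Real.log T := Real.log_pos (by linarith)
    constructor
    · refine (h1 ⟨σ, hσ⟩).trans (le_of_eq ?_)
      congr 1
      ext t
      simp only [Set.mem_ofPred_eq, S_eq]
      refine and_congr_right fun ht => ?_
      have h3 : 0 < σ * Z t := ht.2.2.1
      have h4 : σ * Z t = |Z t| := by
        rw [← abs_of_pos h3, abs_mul]
        rcases hσ with h | h <;> rw [h] <;> simp
      rw [h4, abs_Z]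
    · refine le_trans (measure_mono ?_) h2
      intro t ht
      refine ⟨ht.1, ht.2.1, ?_⟩
      rw [← abs_Z]
      refine ht.2.2.trans ?_
      have h4 : |σ * Z t| = |Z t| := by
        rw [abs_mul]
        rcases hσ with h | h <;> rw [h] <;> simp
      rw [← h4]
      exact le_abs_self _

end

end Pool.Agent.Results.MP_112ba8_nt.PositiveAndNegativeValues
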