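import Pool.Agent.U899.UM.Large

set_option autoImplicit false

/-!
# The universal heights carry the moments and the large values of zeta on the critical line

Let `K` be a compact set in the strip `1/2 < Re z < 1` with connected complement and let `f` be continuous on `K`,
holomorphic and zero-free in the interior of `K`. By the universality theorem the set `S ε K f` of the heights `t`
with `sup_{z ∈ K} |ζ(z + it) - f(z)| < ε` has positive lower density; its density, however, may be arbitrarily small.

We prove, unconditionally, that for every real `k ≥ 1` this set alone carries the `2k`-th moment of zeta ON the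
critical line, up to a factor `(log log T)^(ψ(T))`, where `ψ` tends to infinity as slowly as one likes, and that it
does so at each of the sizes `|ζ(1/2 + it)| ≈ (log T)^k exp(x √((1/2) log log T))` which are typical for this moment;
consequently the values `|ζ(1/2 + it)| ≥ (log T)^k` occur on this set with the expected frequency
`(log T)^(-k²)`, up to a factor `exp(o(√(log log T)))`.
-/

namespace Pool.Agent.Results.MP_112ba8_nt.UniversalHeights

open Complex Filter MeasureTheory Topology

/-- `(K, f)` is admissible: `K` is a compact subset of the strip `1/2 < Re z < 1` with connected complement, `f` is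
continuous on `K` and holomorphic without zeros in the interior of `K` (zeros on the boundary are allowed). -/
structure Admissible (K : Set ℂ) (f : ℂ → ℂ) : Prop where
  compact : IsCompact K
  strip : ∀ z ∈ K, 1 / 2 < z.re ∧ z.re < 1
  compl_connected : IsConnected Kᶜ
  cont : ContinuousOn f K
  hol : DifferentiableOn ℂ f (interior K)
  nonzero : ∀ z ∈ interior K, f z ≠ 0

/-- `S ε K f`: the real `t` with `sup_{z ∈ K} |ζ(z + it) - f(z)| < ε`. -/
def S (ε : ℝ) (K : Set ℂ) (f : ℂ → ℂ) : Set ℝ :=
  {t : ℝ | ∃ δ < ε, ∀ z ∈ K, ‖riemannZeta (z + t * I) - f z‖ ≤ δ}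

/-- the modulus of zeta on the critical line at height `t` -/
noncomputable def z0 (t : ℝ) : ℝ := ‖riemannZeta (1 / 2 + t * I)‖

/-- The size `(log T)^k exp(x √((1/2) log log T))`. -/
noncomputable def size (k x T : ℝ) : ℝ := Real.log T ^ k * Real.exp (x * Real.sqrt (Real.log (Real.log T) / 2))

theorem result (K : Set ℂ) (f : ℂ → ℂ) (h : Admissible K f) (ε : ℝ) (hε : 0 < ε) (k : ℝ) (hk : 1 ≤ k) :
    -- the moments over the universal heights, at the typical sizes
    (∀ x y : ℝ, x < y → ∀ ψ : ℝ → ℝ, Tendsto ψ atTop atTop → ∀ᶠ T : ℝ in atTop,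
      Real.log T ^ (k ^ 2) * Real.log (Real.log T) ^ (-ψ T) ≤
        (1 / T) * ∫ t in {t : ℝ | t ∈ Set.Icc 0 T ∧ t ∈ S ε K f ∧ size k x T < z0 t ∧ z0 t ≤ size k y T},
          z0 t ^ (2 * k)) ∧
    -- the large values at the universal heights
    ∀ η : ℝ, 0 < η → ∀ᶠ T : ℝ in atTop,
      Real.log T ^ (-(k ^ 2)) * Real.exp (-(η * Real.sqrt (Real.log (Real.log T)))) ≤
        (1 / T) * volume.real {t : ℝ | t ∈ Set.Icc 0 T ∧ t ∈ S ε K f ∧ Real.log T ^ k ≤ z0 t ∧
          z0 t ≤ Real.log T ^ k * Real.exp (η * Real.sqrt (Real.log (Real.log T)))} := by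
  have hS : ∀ z ∈ K, z ∈ {z : ℂ | 1 / 2 < z.re ∧ z.re < 1} := h.strip
  refine ⟨fun x y hxy ψ hψ => ?_, fun η hη => ?_⟩
  · have key := Pool.Agent.U899.UM.line_moment h.compact hS h.compl_connected h.cont h.hol h.nonzero hε hk hxy hψ
    filter_upwards [key, Pool.Agent.U899.UM.LL_exp, Pool.Agent.U899.UM.LL_tendsto.eventually_gt_atTop 0,
      Pool.Agent.U899.UM.level_pos k x hk, eventually_gt_atTop 0] with T e1 e2 e3 e4 e5
    have hlk : Real.log T ^ k = Real.exp (k * Pool.Agent.U899.UM.LL T) := by rw [e2, ← Real.exp_mul, mul_comm]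
    have hsz : ∀ v : ℝ, size k v T = Real.exp (k * Pool.Agent.U899.UM.LL T +
        v * Real.sqrt (Pool.Agent.U899.UM.LL T / 2)) := by
      intro v
      unfold size
      rw [hlk, Real.exp_add]
      rfl
    have hpsi : Real.log (Real.log T) ^ (-ψ T) = Real.exp (-(ψ T * Real.log (Pool.Agent.U899.UM.LL T))) := by
      change Pool.Agent.U899.UM.LL T ^ (-ψ T) = _
      rw [Real.rpow_def_of_pos e3]
      congr 1
      ring
    rw [hpsi]
    have e6 : ∫ t in {t : ℝ | t ∈ Set.Icc 0 T ∧ t ∈ Pool.Agent.U899.UM.SU ε K f ∧ t ∈ Pool.Agent.U899.UM.Wn k x y T},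
        Pool.Agent.N748.MO.zh t ^ (2 * k) ≤
        ∫ t in {t : ℝ | t ∈ Set.Icc 0 T ∧ t ∈ S ε K f ∧ size k x T < z0 t ∧ z0 t ≤ size k y T}, z0 t ^ (2 * k) := by
      refine setIntegral_mono_set ((Pool.Agent.U899.UM.zh_int k (by linarith) T).mono_set fun t ht => ht.1)
        (ae_restrict_of_ae (Eventually.of_forall fun t => Real.rpow_nonneg (norm_nonneg _) _))
        (Eventually.of_forall fun t ht => ?_)
      obtain ⟨h1, h2, h3, h4⟩ := ht
      have h5 : 0 < Real.log (Pool.Agent.N748.MO.zh t) := lt_trans e4 h3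
      have h6 : 0 < Pool.Agent.N748.MO.zh t := lt_of_le_of_ne (norm_nonneg _) fun e => by
        rw [← e, Real.log_zero] at h5
        exact lt_irrefl _ h5
      refine ⟨h1, h2, ?_, ?_⟩
      · rw [hsz]
        change _ < Pool.Agent.N748.MO.zh t
        rw [← Real.exp_log h6, Real.exp_lt_exp]
        exact h3
      · rw [hsz]
        change Pool.Agent.N748.MO.zh t ≤ _
        rw [← Real.exp_log h6, Real.exp_le_exp]
        exact h4
    have e7 := mul_le_mul_of_nonneg_left (e1.trans e6) (by positivity : 0 ≤ 1 / T)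
    refine le_trans (le_of_eq ?_) e7
    field_simp
  · have key := Pool.Agent.U899.UM.line_large h.compact hS h.compl_connected h.cont h.hol h.nonzero hε hk hη
    filter_upwards [key, eventually_gt_atTop 0] with T e1 e5
    have e7 := mul_le_mul_of_nonneg_left e1 (by positivity : 0 ≤ 1 / T)
    refine le_trans (le_of_eq ?_) e7
    have e8 : Pool.Agent.U899.UM.LL T = Real.log (Real.log T) := rfl
    rw [e8]
    field_simp

end Pool.Agent.Results.MP_112ba8_nt.UniversalHeights
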